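import Mathlib
import Pool.Agent.R343.LI4

set_option autoImplicit false

/-!
# The Bombieri-Lang-Vojta equivalence for integral points with compressible coordinates

Let `V` be an affine variety over a number field `K`, the zeros in affine `n`-space of finitely many
polynomials `F` with coefficients in `𝓞 K`, and `V'` the closed subset of `V` given by `G`; both are
arbitrary. For a base `b ≥ 2` the following are equivalent:

* every nonconstant entire curve of exponential type in `V` lies in `V'`;
* every nonconstant map from the punctured line to `V` lies in `V'`;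
* (heights) for each finitely generated group `Γ` of algebraic numbers, `z` and `M`: if `x` is a point
  of `V` outside `V'` whose coordinates are `t ^ m * ∑ a_j t ^ (N - 1 - j)` with, for each coordinate,
  its own base `t` (not a root of unity, with a power in `Γ`), integer `m` and word
  `a_0, …, a_(N-1)` of algebraic numbers of height at most `B` that has at most `z` Lempel-Ziv
  phrases, `N h(t) ≤ M (1 + h(1 : x))`, then `h(1 : x) ≤ C (1 + B)`, where `C` depends on `V`, `V'`,
  `Γ`, `z`, `M`;
* the points of this form over a number field with `B` fixed are finite in number;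
* over each number field `L ⊇ K`, for all `z`, `M`, `B` the points of `V` outside `V'` whose
  coordinates have, in base `b`, an expansion `b ^ m * ∑ a_j b ^ (N - 1 - j)` with digits in `L` of
  height at most `B`, at most `z` Lempel-Ziv phrases and `N ≤ M (1 + ∑ h(x_i))` are finite in
  number.

Both conditions of the Bombieri-Lang-Vojta conjecture, (i) on entire curves and (ii) on integral
points, imply these.
-/

namespace Pool.Agent.Results.MP_e97a4d_nt.LempelZivIntegral

open MvPolynomial Pool.Agent.W235.RM Pool.Agent.TH409.SH Pool.Agent.Y215.AF Pool.Agent.R343.LI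
open Pool.Agent.H159R3.Exp (ExpCurvesIn FinitelyManyIntegral)
open scoped NumberField

theorem result {K : Type} [Field K] [NumberField K] (σ : K →+* ℂ) {ι κ : Type} [Finite ι] {n : ℕ}
    (F : ι → MvPolynomial (Fin n) (𝓞 K)) (G : κ → MvPolynomial (Fin n) (𝓞 K)) (b : ℕ)
    (hb : 2 ≤ b) :
    List.TFAE [ExpCurvesIn σ F G, GmCurvesIn σ F G, LZHeights F G, LZRational F G,
      LZBase b F G] ∧
    (EntireCurvesIn σ F G → LZHeights F G) ∧ (FinitelyManyIntegral F G → LZHeights F G) := by
  have h := tfaeLZ σ F G b hb
  refine ⟨h, fun he => ?_, fun hi => ?_⟩
  · have h1 : ExpCurvesIn σ F G → LZHeights F G := (h.out 0 2).1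
    intro _
    exact h1 (exp_of_entire σ F G he)
  · have h1 : RecurrenceFinite F G := rec_of_integral F G hi
    have h2 : GmCurvesIn σ F G → LZHeights F G := (h.out 1 2).1
    intro _
    exact h2 (((tfae σ F G).out 5 1).1 h1)

end Pool.Agent.Results.MP_e97a4d_nt.LempelZivIntegral
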