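import Mathlib
import Pool.Agent.R406.PU.Main

set_option autoImplicit false

/-!
# The Bombieri-Lang-Vojta equivalence for projective varieties and sums of units

Let `V` be a projective variety over a number field `K`, the zeros in projective `n`-space of
finitely many forms `F` with coefficients in `𝓞 K`, and `V'` the closed subset of `V` given by the
forms `G`.  Both are arbitrary. The following are equivalent:

* every nonconstant entire curve in `V` whose homogeneous coordinates are polynomials in the variable
  and in exponentials of arbitrary entire functions (for instance, sums of entire functions without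
  zeros) lies in `V'`;
* every rational curve in `V` lies in `V'`;
* (heights) for all finitely generated groups `Γ` of algebraic numbers (of any rank): if
  `x = u_1 V_1 + … + u_r V_r` is a point of `V` outside `V'`, where the `u_j` have a power in `Γ` and
  the vectors `V_j` of algebraic numbers are arbitrary, then `h(x) ≤ C (1 + h(V_1, …, V_r))`, with
  `C` depending only on `V`, `V'`, `r`, `Γ`;
* the rational points over a number field of this form with `h(V_1, …, V_r) ≤ B` are finite in
  number;
* for each `r` there is `ε > 0` such that for all `Γ` and all vectors `V_j` the points over `Qbar` (of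
  unbounded degree) of the form `∑ u_j s_j V_j`, `h(s_1 : … : s_r) < ε`, are finite in number, at most
  polynomially many in the height of the vectors;
* for each number field `L ⊇ K`, each finite set `S` of primes and each `r`, only finitely many
  points of `V` over `L` outside `V'` have homogeneous coordinates which are sums of at most `r`
  `S`-units.

Both conditions of the Bombieri-Lang-Vojta conjecture, (i) on entire curves and (ii) on rational
points, imply these.
-/

namespace Pool.Agent.Results.MP_e97a4d_nt.ProjectiveUnitSums

open MvPolynomial Pool.Agent.W235.PR Pool.Agent.R406.PU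
open scoped NumberField

theorem result {K : Type} [Field K] [NumberField K] (σ : K →+* ℂ) {ι κ : Type} [Finite ι] {n : ℕ}
    (F : ι → MvPolynomial (Fin (n + 1)) (𝓞 K)) (G : κ → MvPolynomial (Fin (n + 1)) (𝓞 K))
    (hF : ∀ i, ∃ e, (F i).IsHomogeneous e) (hG : ∀ l, ∃ e, (G l).IsHomogeneous e) :
    List.TFAE [ExpCurvesIn σ F G, RatCurvesIn σ F G, HullHeights F G, HullRational F G,
      HullNear F G, UnitSumFinite F G] ∧
    (EntireCurvesIn σ F G → UnitSumFinite F G) ∧
    (RationalFinite F G → ExpCurvesIn σ F G) := by
  have h0 := tfaeU σ F G hF hG
  have h16 : ExpCurvesIn σ F G ↔ UnitSumFinite F G := h0.out 0 5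
  refine ⟨h0, fun h => h16.1 (exp_of_entire σ F G hF hG h), fun h => h16.2 ?_⟩
  intro L _ _ _ S _ r
  exact (h L).subset fun P hP => hP.1

end Pool.Agent.Results.MP_e97a4d_nt.ProjectiveUnitSums
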