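import Pool.Agent.R871.SG.Arith2

/-!
MP_e97a4d_nt, Q1: condition (ii), the finiteness of integral points outside `V'`, implies condition
(i) for entire curves of slow growth, if `V` is projective over an affine scheme.
-/

set_option autoImplicit false

namespace Pool.Agent.Results.MP_e97a4d_nt.SlowCurvesIntegral

open MvPolynomial Pool.Agent.R871.SG

/-- Let `V = {F = 0}` be a closed subvariety of `ℙⁿ × 𝔸ᵐ` over a number field `K` (for instance, an
affine or a projective variety), and let `τ` be an embedding of `K` into the complex numbers. There is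
a function `φ` with `φ r / log r → ∞` for `r → ∞` which has the following property. Let
`V' = {G = 0}` be a closed subset such that for every finite extension `L` of `K`, and every finite set
`S` of places of `L`, the set of `S`-integral points of `V` outside of `V'` is finite. Then every
nonconstant entire curve `f` in `V_τ`, such that `log ‖f z‖ ≤ φ r` for `‖z‖ ≤ r`, for arbitrarily large
`r`, lies in `V'_τ`. -/
theorem result {K : Type} [Field K] [NumberField K] {n m : ℕ} {ι : Type}
    (F : ι → PolK K n m) (hF : ∀ i, ∃ d, (F i).IsHomogeneous d) (τ : K →+* ℂ) :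
    ∃ φ : ℝ → ℝ, Grows φ ∧ ∀ (κ : Type) (G : κ → PolK K n m),
      (∀ k, ∃ d, (G k).IsHomogeneous d) → FiniteIntegral F G →
        SlowIn2 (fun i => map (map τ) (F i)) Set.univ φ (fun k => map (map τ) (G k)) := by
  obtain ⟨φ, hφ, h⟩ := limits_alg (fun i => map (map τ) (F i))
    (fun i => (hF i).imp fun d hd => hd.map _) isClosed_univ (fun _ _ _ => Set.mem_univ _)
  refine ⟨φ, hφ, fun κ G hG hfin => ?_⟩
  exact (slow_iff2 hφ h (fun k => (hG k).imp fun d hd => hd.map _)).1
    (alg_in_of_finite hF hG hfin τ)

end Pool.Agent.Results.MP_e97a4d_nt.SlowCurvesIntegral
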