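import Mathlib
import Pool.Agent.R849.AF.Equiv
import Pool.Agent.Y215.AF.Main

set_option autoImplicit false

/-!
# The Bombieri-Lang-Vojta equivalence and sums of units, small and cyclotomic multipliers

Let `V` be an affine variety over a number field `K`, the zeros in affine `n`-space of finitely many
polynomials `F` with coefficients in `𝓞 K`, and `V'` the closed subset of `V` given by `G`; both are
arbitrary. There are constants `ε d r > 0`, `δ d r > 0`, `M d r` and `N d r B` (they depend on nothing
else) such that the following are equivalent:

* every nonconstant entire curve of exponential type in `V` lies in `V'`;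
* every nonconstant map from the punctured line to `V` lies in `V'`;
* (heights) for each `r` and each finitely generated group `Γ` of algebraic numbers: if
  `x = u_1 V_1 + … + u_r V_r` is a point of `V` outside `V'`, where each `u_j` has a power in `Γ` and
  the vectors `V_j` of algebraic numbers are arbitrary, then `h(1 : x) ≤ C (1 + h(1 : V_1, …, V_r))`;
* the points of this form over a number field with `h(1 : V_1, …, V_r) ≤ B` are finite in number;
* for all `Γ`, `r` and all vectors `V_j` the points of `V` outside `V'` over `Qbar` (of unbounded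
  degree) of the form `∑ u_j s_j V_j`, `h(1 : s) < δ d r`, are finite in number, at most polynomially
  many in the height of the vectors (`d` bounds the degrees of the polynomials in `F`);
* for all number fields `L ⊇ K`, finite sets `S` of primes and `r`, the points of `V` outside `V'` over
  `L` whose coordinates are sums of at most `r` `S`-units are finite in number;
* (uniformity) for all fields `L ⊇ K` whatsoever and all vectors `V_j` over `L`, at most `M d r`
  points of `V` outside `V'` have the form `∑ t_j V_j` with algebraic numbers `t_j` for which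
  `h(1 : t_1 : … : t_r) < ε d r`;
* (uniformity) for all fields `L ⊇ K` and all vectors `V_j` over `L`, at most `N d r B` points of `V`
  outside `V'` have the form `∑ α_j V_j` with cyclotomic integers `α_j` for which the mean of the
  squares of the absolute values of the conjugates is at most `B`;
* for all vectors `V_j` over `Qbar` the points of `V` outside `V'` of the form `∑ ζ_j V_j` with roots
  of unity `ζ_j` are finite in number.

Both conditions of the Bombieri-Lang-Vojta conjecture, (i) on entire curves and (ii) on `S`-integral
points, imply these.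
-/

namespace Pool.Agent.Results.MP_e97a4d_nt.UniformMultipliers

open MvPolynomial Pool.Agent.W235.RM Pool.Agent.TH409.SH Pool.Agent.Y215.AF Pool.Agent.R849.AF
open Pool.Agent.H159R3.Exp (ExpCurvesIn FinitelyManyIntegral)
open scoped NumberField

theorem result : ∃ (ε δ : ℕ → ℕ → ℝ) (M : ℕ → ℕ → ℕ) (N : ℕ → ℕ → ℝ → ℕ),
    (∀ d r : ℕ, 1 ≤ d → 0 < ε d r ∧ 0 < δ d r) ∧
    ∀ (K : Type) [Field K] [NumberField K] (σ : K →+* ℂ) (ι κ : Type) [Finite ι] (n : ℕ)
      (F : ι → MvPolynomial (Fin n) (𝓞 K)) (G : κ → MvPolynomial (Fin n) (𝓞 K)),
      List.TFAE [ExpCurvesIn σ F G, GmCurvesIn σ F G, HullHeights F G, HullRational F G,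
        HullNear δ F G, UnitSumFinite F G, SmallUniform ε M F G, CycUniform N F G,
        TorsFinite F G] ∧
      (EntireCurvesIn σ F G → SmallUniform ε M F G) ∧
      (FinitelyManyIntegral F G → SmallUniform ε M F G) := by
  obtain ⟨N, hN⟩ := cycUniform
  refine ⟨epsA, eps, MA, N, fun d r hd => ⟨epsA_pos d r hd, eps_pos d r hd⟩,
    fun K _ _ σ ι κ _ n F G => ?_⟩
  have h0 := tfaeU σ F G
  have hsmall : GmCurvesIn σ F G → SmallUniform epsA MA F G := fun h =>
    smallUniform F G fun h2 => not_gm_of_hasLaurent σ F G h2 h
  have h : List.TFAE [ExpCurvesIn σ F G, GmCurvesIn σ F G, HullHeights F G, HullRational F G,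
      HullNear eps F G, UnitSumFinite F G, SmallUniform epsA MA F G, CycUniform N F G,
      TorsFinite F G] := by
    tfae_have 1 ↔ 2 := h0.out 0 1
    tfae_have 1 ↔ 3 := h0.out 0 2
    tfae_have 1 ↔ 4 := h0.out 0 3
    tfae_have 1 ↔ 5 := h0.out 0 4
    tfae_have 1 ↔ 6 := h0.out 0 5
    tfae_have 2 → 7 := hsmall
    tfae_have 2 → 8 := fun h => hN n K ι κ F G fun h2 => not_gm_of_hasLaurent σ F G h2 h
    tfae_have 7 → 9 := tors_of_small F G epsA (fun d r hd => epsA_pos d r hd) MA
    tfae_have 8 → 9 := tors_of_cyc F G N
    tfae_have 9 → 1 := fun h => by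
      by_contra h2
      exact not_tors F G (hasLaurent_of_exp F G σ h2) h
    tfae_finish
  refine ⟨h, fun he => hsmall ?_, fun hi => hsmall ?_⟩
  · exact (h0.out 0 1).1 (exp_of_entire σ F G he)
  · have h1 : RecurrenceFinite F G := rec_of_integral F G hi
    exact ((tfae σ F G).out 5 1).1 h1

end Pool.Agent.Results.MP_e97a4d_nt.UniformMultipliers
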